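import Pool.Agent.Helper5.SX.St
import Mathlib.GroupTheory.Perm.List

/-!
# Module CYC of project SX: a directed cycle as a permutation
-/

set_option autoImplicit false

namespace Pool.Agent.Helper98.SX

open _root_.SX
open Finset
open scoped Classical

theorem chain_fun {V : Type} (R : V → V → Prop) (a b : V) (h : Relation.ReflTransGen R a b) :
    ∃ n : ℕ, ∃ f : ℕ → V, f 0 = a ∧ f n = b ∧ ∀ i < n, R (f i) (f (i + 1)) := by
  induction h with
  | refl => exact ⟨0, fun _ => a, rfl, rfl, fun i hi => absurd hi (Nat.not_lt_zero i)⟩
  | @tail b c _ hbc ih =>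
    obtain ⟨n, f, h0, hn, hR⟩ := ih
    refine ⟨n + 1, fun i => if i ≤ n then f i else c, ?_, ?_, ?_⟩
    · simp [h0]
    · simp
    · intro i hi
      by_cases h : i = n
      · subst h
        simp [hn, hbc]
      · have h1 : i < n := by omega
        have h2 : i ≤ n := h1.le
        have h3 : i + 1 ≤ n := h1
        simp only [h2, h3, if_true]
        exact hR i h1

theorem chain_inj {V : Type} (R : V → V → Prop) (a b : V) (h : Relation.ReflTransGen R a b) :
    ∃ n : ℕ, ∃ f : ℕ → V, f 0 = a ∧ f n = b ∧ (∀ i < n, R (f i) (f (i + 1))) ∧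
      ∀ i j, i < j → j ≤ n → f i ≠ f j := by
  have hex := chain_fun R a b h
  obtain ⟨f, h0, hn, hR⟩ := Nat.find_spec hex
  refine ⟨Nat.find hex, f, h0, hn, hR, ?_⟩
  intro i j hij hjn hf
  set n := Nat.find hex with hnd
  have hlt : n - (j - i) < n := by omega
  refine Nat.find_min hex hlt ⟨fun k => if k ≤ i then f k else f (k + (j - i)), ?_, ?_, ?_⟩
  · simp [h0]
  · by_cases h1 : n - (j - i) ≤ i
    · have h2 : n = j := by omega
      have h3 : n - (j - i) = i := by omega
      simp only [h3, le_refl, if_true]
      rw [hf, ← h2, hn]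
    · simp only [h1, if_false]
      have h3 : n - (j - i) + (j - i) = n := by omega
      rw [h3, hn]
  · intro k hk
    by_cases h1 : k + 1 ≤ i
    · have h2 : k ≤ i := by omega
      simp only [h1, h2, if_true]
      exact hR k (by omega)
    · by_cases h2 : k = i
      · subst h2
        have h3 : ¬ (k + 1 ≤ k) := by omega
        simp only [h3, le_refl, if_true, if_false]
        have h4 : k + 1 + (j - k) = j + 1 := by omega
        rw [h4, hf]
        exact hR j (by omega)
      · have h3 : ¬ (k ≤ i) := by omega
        simp only [h1, h3, if_false]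
        have h4 : k + 1 + (j - i) = (k + (j - i)) + 1 := by omega
        rw [h4]
        exact hR _ (by omega)

theorem hCYC : StCYC := by
  intro V _ r C x x' hx hx' hne hr hch
  obtain ⟨n, f, h0, hn, hR, hinj⟩ := chain_inj _ x' x hch
  have hlen : ((List.range (n + 1)).map f).length = n + 1 := by simp
  have hnd : ((List.range (n + 1)).map f).Nodup := by
    refine List.Nodup.map_on ?_ List.nodup_range
    intro i hi j hj hij
    rw [List.mem_range] at hi hj
    rcases lt_trichotomy i j with h | h | h
    · exact absurd hij (hinj i j h (by omega))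
    · exact h
    · exact absurd hij.symm (hinj j i h (by omega))
  have hval : ∀ i (hi : i < ((List.range (n + 1)).map f).length),
      ((List.range (n + 1)).map f)[i] = f i := by
    intro i hi
    simp
  have hstep : ∀ i, i < n → ((List.range (n + 1)).map f).formPerm (f i) = f (i + 1) := by
    intro i hi
    have h1 := List.formPerm_apply_getElem _ hnd i (by rw [hlen]; omega)
    rw [hval, hval] at h1
    rw [h1]
    congr 1
    rw [hlen]
    exact Nat.mod_eq_of_lt (by omega)
  have hlast : ((List.range (n + 1)).map f).formPerm (f n) = f 0 := by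
    have h1 := List.formPerm_apply_getElem _ hnd n (by rw [hlen]; omega)
    rw [hval, hval] at h1
    rw [h1]
    congr 1
    rw [hlen]
    exact Nat.mod_self _
  refine ⟨((List.range (n + 1)).map f).formPerm, ?_, ?_⟩
  · rw [← hn, hlast, h0]
  · intro v hv
    have hmem := List.mem_of_formPerm_apply_ne hv
    rw [List.mem_map] at hmem
    obtain ⟨i, hi, rfl⟩ := hmem
    rw [List.mem_range] at hi
    have hC : ∀ i, i ≤ n → f i ∈ C := by
      intro i hi
      rcases Nat.eq_zero_or_pos i with h | h
      · rw [h, h0]; exact hx'
      · have h2 := hR (i - 1) (by omega)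
        have h3 : i - 1 + 1 = i := by omega
        rw [h3] at h2
        exact h2.1
    rcases Nat.lt_or_ge i n with h | h
    · rw [hstep i h]
      exact ⟨hC i (by omega), hC (i + 1) (by omega), (hR i h).2⟩
    · have h2 : i = n := by omega
      subst h2
      rw [hlast, h0, hn]
      exact ⟨hx, hx', hr⟩

end Pool.Agent.Helper98.SX
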